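import Pool.Agent.L7h52.LF.Stm3

/-! Project LF of helper52 (hard anchor MP_0ec205_nt): the part `S_CO3` (collisions of multiples,
second form, walks of length three). -/

set_option autoImplicit false

open Finset MeasureTheory

namespace Pool.Agent.L7h37.LF

open Pool.Agent.L7h52.LF

/-- the relation between two points -/
def Rl (h : ℕ) (T v v' : ℝ) (z : ℕ × ℕ) : Prop :=
  z.1 ≤ 2 * h ∧ z.2 ≤ 2 * h ∧
    |(z.1 : ℝ) * v - (z.2 : ℝ) * v'| < min (z.1 : ℝ) (z.2 : ℝ) / (h * T)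

open Classical in
/-- the kernel -/
noncomputable def kk (n h : ℕ) (T v v' : ℝ) : ℝ :=
  ∑ z ∈ (Finset.Icc 1 n ×ˢ Finset.Icc 1 n).filter (fun z => Rl h T v v' z),
    1 / Real.sqrt ((z.1 : ℝ) * (z.2 : ℝ))

theorem kk_nonneg (n h : ℕ) (T v v' : ℝ) : 0 ≤ kk n h T v v' := by
  unfold kk
  exact Finset.sum_nonneg fun z _ => by positivity

theorem Rl_symm (h : ℕ) (T v v' : ℝ) (z : ℕ × ℕ) : Rl h T v v' z → Rl h T v' v (z.2, z.1) := by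
  rintro ⟨h1, h2, h3⟩
  refine ⟨h2, h1, ?_⟩
  show |(z.2 : ℝ) * v' - (z.1 : ℝ) * v| < min (z.2 : ℝ) (z.1 : ℝ) / (h * T)
  rw [abs_sub_comm, min_comm]
  exact h3

theorem kk_symm (n h : ℕ) (T v v' : ℝ) : kk n h T v v' = kk n h T v' v := by
  classical
  unfold kk
  refine Finset.sum_nbij' (fun z => (z.2, z.1)) (fun z => (z.2, z.1)) ?_ ?_ ?_ ?_ ?_
  · intro z hz
    rw [Finset.mem_filter, Finset.mem_product] at hz ⊢
    exact ⟨⟨hz.1.2, hz.1.1⟩, Rl_symm h T v v' z hz.2⟩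
  · intro z hz
    rw [Finset.mem_filter, Finset.mem_product] at hz ⊢
    exact ⟨⟨hz.1.2, hz.1.1⟩, Rl_symm h T v' v z hz.2⟩
  · intro z _; rfl
  · intro z _; rfl
  · intro z _
    show 1 / Real.sqrt ((z.1 : ℝ) * (z.2 : ℝ)) = 1 / Real.sqrt ((z.2 : ℝ) * (z.1 : ℝ))
    rw [mul_comm]

/-- uniqueness of the reduced fraction -/
theorem uniq (h p q p' q' : ℕ) (T lam v v' : ℝ) (hT : 0 < T) (hh : 1 ≤ h)
    (h8 : 8 * (h : ℝ) ≤ T * lam) (hv : lam ≤ v) (hlam : 0 < lam)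
    (hc : Nat.Coprime p q) (hc' : Nat.Coprime p' q')
    (h1 : Rl h T v v' (p, q)) (h2 : Rl h T v v' (p', q')) : p = p' ∧ q = q' := by
  have hh0 : (0 : ℝ) < h := by exact_mod_cast hh
  have hhT : 0 < (h : ℝ) * T := mul_pos hh0 hT
  obtain ⟨a1, a2, a3⟩ := h1
  obtain ⟨b1, b2, b3⟩ := h2
  simp only at a1 a2 a3 b1 b2 b3
  have r1 : (q : ℝ) ≤ 2 * h := by exact_mod_cast a2
  have r2 : (q' : ℝ) ≤ 2 * h := by exact_mod_cast b2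
  have q0 : (0 : ℝ) ≤ q := Nat.cast_nonneg _
  have q0' : (0 : ℝ) ≤ q' := Nat.cast_nonneg _
  have c1 : |(p : ℝ) * v - (q : ℝ) * v'| < q / (h * T) :=
    lt_of_lt_of_le a3 (div_le_div_of_nonneg_right (min_le_right _ _) hhT.le)
  have c2 : |(p' : ℝ) * v - (q' : ℝ) * v'| < q' / (h * T) :=
    lt_of_lt_of_le b3 (div_le_div_of_nonneg_right (min_le_right _ _) hhT.le)
  have hq : 0 < (q : ℝ) := by
    by_contra hn
    have : (q : ℝ) = 0 := le_antisymm (not_lt.1 hn) q0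
    rw [this, zero_div] at c1
    exact absurd c1 (not_lt.2 (abs_nonneg _))
  have hq' : 0 < (q' : ℝ) := by
    by_contra hn
    have : (q' : ℝ) = 0 := le_antisymm (not_lt.1 hn) q0'
    rw [this, zero_div] at c2
    exact absurd c2 (not_lt.2 (abs_nonneg _))
  have hvp : 0 < v := lt_of_lt_of_le hlam hv
  have key : v * |(p : ℝ) * q' - p' * q| < v := by
    have e1 : v * |(p : ℝ) * q' - p' * q| =
        |(q' : ℝ) * ((p : ℝ) * v - (q : ℝ) * v') - (q : ℝ) * ((p' : ℝ) * v - (q' : ℝ) * v')| := by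
      rw [← abs_of_pos hvp, ← abs_mul, abs_of_pos hvp]
      congr 1
      ring
    rw [e1]
    have e2 : |(q' : ℝ) * ((p : ℝ) * v - (q : ℝ) * v') -
        (q : ℝ) * ((p' : ℝ) * v - (q' : ℝ) * v')| ≤
        (q' : ℝ) * |(p : ℝ) * v - (q : ℝ) * v'| + (q : ℝ) * |(p' : ℝ) * v - (q' : ℝ) * v'| := by
      refine (abs_sub _ _).trans ?_
      rw [abs_mul, abs_mul, abs_of_pos hq, abs_of_pos hq']
    have e3 : (q' : ℝ) * |(p : ℝ) * v - (q : ℝ) * v'| < (q' : ℝ) * (q / (h * T)) :=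
      mul_lt_mul_of_pos_left c1 hq'
    have e4 : (q : ℝ) * |(p' : ℝ) * v - (q' : ℝ) * v'| < (q : ℝ) * (q' / (h * T)) :=
      mul_lt_mul_of_pos_left c2 hq
    have e5 : (q' : ℝ) * (q / (h * T)) + (q : ℝ) * (q' / (h * T)) ≤ lam := by
      have e6 : (q' : ℝ) * (q / (h * T)) + (q : ℝ) * (q' / (h * T)) =
          2 * (q * q') / (h * T) := by
        field_simp
        ring
      rw [e6, div_le_iff₀ hhT]
      have e7 : (q : ℝ) * q' ≤ 2 * h * (2 * h) :=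
        mul_le_mul r1 r2 q0' (by positivity)
      have e8 : (h : ℝ) * (8 * h) ≤ h * (T * lam) := mul_le_mul_of_nonneg_left h8 hh0.le
      nlinarith
    linarith
  have key2 : |(p : ℝ) * q' - p' * q| < 1 := by
    by_contra hn
    have := mul_le_mul_of_nonneg_left (not_lt.1 hn) hvp.le
    linarith
  have key3 : (p : ℤ) * q' - p' * q = 0 := by
    have : |((p : ℤ) * q' - p' * q : ℤ)| < 1 := by
      have h' : ((|(p : ℤ) * q' - p' * q| : ℤ) : ℝ) < ((1 : ℤ) : ℝ) := by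
        push_cast
        exact key2
      exact_mod_cast h'
    exact Int.abs_lt_one_iff.1 this
  have key4 : p * q' = p' * q := by
    have : ((p * q' : ℕ) : ℤ) = ((p' * q : ℕ) : ℤ) := by
      push_cast
      linarith
    exact_mod_cast this
  have d1 : p ∣ p' := hc.dvd_of_dvd_mul_right ⟨q', key4.symm⟩
  have d2 : p' ∣ p := hc'.dvd_of_dvd_mul_right ⟨q, key4⟩
  have d3 : q ∣ q' := hc.symm.dvd_of_dvd_mul_left ⟨p', by rw [key4, mul_comm]⟩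
  have d4 : q' ∣ q := hc'.symm.dvd_of_dvd_mul_left ⟨p, by rw [← key4, mul_comm]⟩
  exact ⟨Nat.dvd_antisymm d1 d2, Nat.dvd_antisymm d3 d4⟩

/-- the reduced fraction of a collision -/
theorem red (h a b : ℕ) (T v v' : ℝ) (hT : 0 < T) (hh : 1 ≤ h)
    (ha : h ≤ a ∧ a < 2 * h) (hb : h ≤ b ∧ b < 2 * h)
    (hab : |(a : ℝ) * v - (b : ℝ) * v'| < 1 / T) :
    1 ≤ Nat.gcd a b ∧ 1 ≤ a / Nat.gcd a b ∧ 1 ≤ b / Nat.gcd a b ∧
      Nat.gcd a b * (a / Nat.gcd a b) = a ∧ Nat.gcd a b * (b / Nat.gcd a b) = b ∧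
      Nat.Coprime (a / Nat.gcd a b) (b / Nat.gcd a b) ∧
      Rl h T v v' (a / Nat.gcd a b, b / Nat.gcd a b) := by
  have hh0 : (0 : ℝ) < h := by exact_mod_cast hh
  have hhT : 0 < (h : ℝ) * T := mul_pos hh0 hT
  set g := Nat.gcd a b with hg
  have hg0 : 0 < g := Nat.gcd_pos_of_pos_left _ (by omega)
  have ea : g * (a / g) = a := Nat.mul_div_cancel' (Nat.gcd_dvd_left a b)
  have eb : g * (b / g) = b := Nat.mul_div_cancel' (Nat.gcd_dvd_right a b)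
  set p := a / g with hp
  set q := b / g with hq
  have hp1 : 1 ≤ p := by
    rcases Nat.eq_zero_or_pos p with h0 | h0
    · rw [h0] at ea; omega
    · exact h0
  have hq1 : 1 ≤ q := by
    rcases Nat.eq_zero_or_pos q with h0 | h0
    · rw [h0] at eb; omega
    · exact h0
  have hpa : p ≤ a := by
    calc p ≤ g * p := Nat.le_mul_of_pos_left _ hg0
      _ = a := ea
  have hqb : q ≤ b := by
    calc q ≤ g * q := Nat.le_mul_of_pos_left _ hg0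
      _ = b := eb
  refine ⟨hg0, hp1, hq1, ea, eb, Nat.coprime_div_gcd_div_gcd hg0, by omega, by omega, ?_⟩
  show |(p : ℝ) * v - (q : ℝ) * v'| < min (p : ℝ) (q : ℝ) / (h * T)
  have hgr : (0 : ℝ) < g := by exact_mod_cast hg0
  have ea' : (a : ℝ) = g * p := by rw [← Nat.cast_mul, ea]
  have eb' : (b : ℝ) = g * q := by rw [← Nat.cast_mul, eb]
  have e1 : |(a : ℝ) * v - (b : ℝ) * v'| = g * |(p : ℝ) * v - (q : ℝ) * v'| := by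
    rw [ea', eb', ← abs_of_pos hgr, ← abs_mul, abs_of_pos hgr]
    congr 1
    ring
  rw [e1] at hab
  have e2 : (h : ℝ) ≤ g * min (p : ℝ) (q : ℝ) := by
    rcases min_choice (p : ℝ) (q : ℝ) with hm | hm
    · rw [hm, ← ea']
      exact_mod_cast ha.1
    · rw [hm, ← eb']
      exact_mod_cast hb.1
  rw [lt_div_iff₀ hhT]
  rw [lt_div_iff₀ hT] at hab
  have e3 : (g : ℝ) * (|(p : ℝ) * v - (q : ℝ) * v'| * (h * T)) < g * min (p : ℝ) (q : ℝ) := by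
    calc (g : ℝ) * (|(p : ℝ) * v - (q : ℝ) * v'| * (h * T)) =
        h * (g * |(p : ℝ) * v - (q : ℝ) * v'| * T) := by ring
      _ < h * 1 := mul_lt_mul_of_pos_left hab hh0
      _ = h := mul_one _
      _ ≤ _ := e2
  exact lt_of_mul_lt_mul_left e3 hgr.le

/-- the number of collisions of one pair of points -/
theorem cnt_le (T lam : ℝ) (h n : ℕ) (v v' : ℝ) (hn : 1 ≤ n) (hT : 0 < T) (hlam : 0 < lam)
    (hh : 1 ≤ h) (h8 : 8 * (h : ℝ) ≤ T * lam) (hv : lam ≤ v) :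
    (((Finset.Ico h (2 * h) ×ˢ Finset.Ico h (2 * h)).filter
      (fun y : ℕ × ℕ => |(y.1 : ℝ) * v - (y.2 : ℝ) * v'| < 1 / T)).card : ℝ) ≤
      2 * h * (1 / n + kk n h T v v') := by
  classical
  have hh0 : (0 : ℝ) < h := by exact_mod_cast hh
  have hn0 : (0 : ℝ) < n := by exact_mod_cast hn
  have hk0 := kk_nonneg n h T v v'
  set C := (Finset.Ico h (2 * h) ×ˢ Finset.Ico h (2 * h)).filter
      (fun y : ℕ × ℕ => |(y.1 : ℝ) * v - (y.2 : ℝ) * v'| < 1 / T) with hC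
  have memC : ∀ y ∈ C, (h ≤ y.1 ∧ y.1 < 2 * h) ∧ (h ≤ y.2 ∧ y.2 < 2 * h) ∧
      |(y.1 : ℝ) * v - (y.2 : ℝ) * v'| < 1 / T := by
    intro y hy
    rw [hC, Finset.mem_filter, Finset.mem_product, Finset.mem_Ico, Finset.mem_Ico] at hy
    exact ⟨hy.1.1, hy.1.2, hy.2⟩
  rcases C.eq_empty_or_nonempty with h0 | ⟨y0, hy0⟩
  · rw [h0, Finset.card_empty, Nat.cast_zero]
    positivity
  obtain ⟨m1, m2, m3⟩ := memC y0 hy0
  obtain ⟨r1, r2, r3, r4, r5, r6, r7⟩ := red h y0.1 y0.2 T v v' hT hh m1 m2 m3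
  set p := y0.1 / Nat.gcd y0.1 y0.2 with hp
  set q := y0.2 / Nat.gcd y0.1 y0.2 with hq
  set M := max p q with hM
  have hM1 : 1 ≤ M := le_trans r2 (le_max_left _ _)
  have hM0 : (0 : ℝ) < M := by exact_mod_cast hM1
  have hcard : C.card ≤ 2 * h / M := by
    have hsub : C ⊆ (Finset.Icc 1 (2 * h / M)).image (fun g => (g * p, g * q)) := by
      intro y hy
      obtain ⟨k1, k2, k3⟩ := memC y hy
      obtain ⟨s1, s2, s3, s4, s5, s6, s7⟩ := red h y.1 y.2 T v v' hT hh k1 k2 k3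
      obtain ⟨u1, u2⟩ := uniq h _ _ _ _ T lam v v' hT hh h8 hv hlam s6 r6 s7 r7
      rw [u1] at s4
      rw [u2] at s5
      refine Finset.mem_image.2 ⟨Nat.gcd y.1 y.2, ?_, ?_⟩
      · rw [Finset.mem_Icc, Nat.le_div_iff_mul_le (by omega)]
        refine ⟨s1, ?_⟩
        rcases max_choice p q with hm | hm
        · rw [hM, hm, s4]; omega
        · rw [hM, hm, s5]; omega
      · show (Nat.gcd y.1 y.2 * p, Nat.gcd y.1 y.2 * q) = y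
        rw [s4, s5]
    refine (Finset.card_le_card hsub).trans (Finset.card_image_le.trans ?_)
    rw [Nat.card_Icc, Nat.add_sub_cancel]
  have hcard2 : (C.card : ℝ) ≤ 2 * h * (1 / M) := by
    have e1 : (C.card : ℝ) ≤ ((2 * h / M : ℕ) : ℝ) := by exact_mod_cast hcard
    have e2 := @Nat.cast_div_le ℝ _ _ _ (2 * h) M
    push_cast at e2
    calc (C.card : ℝ) ≤ ((2 * h / M : ℕ) : ℝ) := e1
      _ ≤ 2 * h / M := e2
      _ = 2 * h * (1 / M) := by ring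
  refine hcard2.trans (mul_le_mul_of_nonneg_left ?_ (by positivity))
  rcases le_or_gt M n with hMn | hMn
  · have e3 : (1 : ℝ) / M ≤ kk n h T v v' := by
      have hz : (p, q) ∈ (Finset.Icc 1 n ×ˢ Finset.Icc 1 n).filter (fun z => Rl h T v v' z) := by
        rw [Finset.mem_filter, Finset.mem_product, Finset.mem_Icc, Finset.mem_Icc]
        exact ⟨⟨⟨r2, (le_max_left _ _).trans hMn⟩, ⟨r3, (le_max_right _ _).trans hMn⟩⟩, r7⟩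
      have e4 : (1 : ℝ) / M ≤ 1 / Real.sqrt ((p : ℝ) * (q : ℝ)) := by
        have hp0 : (0 : ℝ) < p := by exact_mod_cast r2
        have hq0 : (0 : ℝ) < q := by exact_mod_cast r3
        refine one_div_le_one_div_of_le (Real.sqrt_pos.2 (mul_pos hp0 hq0)) ?_
        refine Real.sqrt_le_iff.2 ⟨hM0.le, ?_⟩
        rw [sq]
        have e5 : (p : ℝ) ≤ M := by exact_mod_cast le_max_left p q
        have e6 : (q : ℝ) ≤ M := by exact_mod_cast le_max_right p q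
        exact mul_le_mul e5 e6 hq0.le hM0.le
      refine e4.trans ?_
      unfold kk
      exact Finset.single_le_sum
        (f := fun z : ℕ × ℕ => 1 / Real.sqrt ((z.1 : ℝ) * (z.2 : ℝ)))
        (fun z _ => by positivity) hz
    have : (0 : ℝ) ≤ 1 / n := by positivity
    linarith
  · have e3 : (1 : ℝ) / M ≤ 1 / n :=
      one_div_le_one_div_of_le hn0 (by exact_mod_cast hMn.le)
    linarith

theorem step1 (h : ℕ) (T : ℝ) (J : Finset ℝ) (hT : 0 < T) (hh : 1 ≤ h)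
    (hsep : ∀ v ∈ J, ∀ v' ∈ J, v ≠ v' → 2 / (h * T) ≤ |v - v'|) (v v₁ v₁' : ℝ) (z : ℕ × ℕ)
    (hz : 1 ≤ z.2) (h1 : v₁ ∈ J) (h1' : v₁' ∈ J) (hr : Rl h T v v₁ z) (hr' : Rl h T v v₁' z) :
    v₁ = v₁' := by
  by_contra hne
  have hh0 : (0 : ℝ) < h := by exact_mod_cast hh
  have hhT : 0 < (h : ℝ) * T := mul_pos hh0 hT
  have hz0 : (0 : ℝ) < z.2 := by exact_mod_cast hz
  have c1 : |(z.1 : ℝ) * v - (z.2 : ℝ) * v₁| < z.2 / (h * T) :=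
    lt_of_lt_of_le hr.2.2 (div_le_div_of_nonneg_right (min_le_right _ _) hhT.le)
  have c2 : |(z.1 : ℝ) * v - (z.2 : ℝ) * v₁'| < z.2 / (h * T) :=
    lt_of_lt_of_le hr'.2.2 (div_le_div_of_nonneg_right (min_le_right _ _) hhT.le)
  have c3 := hsep v₁ h1 v₁' h1' hne
  have c4 : (z.2 : ℝ) * |v₁ - v₁'| =
      |((z.1 : ℝ) * v - (z.2 : ℝ) * v₁') - ((z.1 : ℝ) * v - (z.2 : ℝ) * v₁)| := by
    rw [← abs_of_pos hz0, ← abs_mul, abs_of_pos hz0]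
    congr 1
    ring
  have c5 : |((z.1 : ℝ) * v - (z.2 : ℝ) * v₁') - ((z.1 : ℝ) * v - (z.2 : ℝ) * v₁)| ≤
      |(z.1 : ℝ) * v - (z.2 : ℝ) * v₁'| + |(z.1 : ℝ) * v - (z.2 : ℝ) * v₁| := abs_sub _ _
  have c6 : (z.2 : ℝ) * (2 / (h * T)) ≤ (z.2 : ℝ) * |v₁ - v₁'| :=
    mul_le_mul_of_nonneg_left c3 hz0.le
  have c7 : (z.2 : ℝ) * (2 / (h * T)) = z.2 / (h * T) + z.2 / (h * T) := by ring
  linarith

theorem step2 (h : ℕ) (T : ℝ) (J : Finset ℝ) (hT : 0 < T) (hh : 1 ≤ h)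
    (hsep : ∀ v ∈ J, ∀ v' ∈ J, v ≠ v' → 2 / (h * T) ≤ |v - v'|) (v v₁ v₁' : ℝ) (z : ℕ × ℕ)
    (hz : 1 ≤ z.1) (h1 : v₁ ∈ J) (h1' : v₁' ∈ J) (hr : Rl h T v₁ v z) (hr' : Rl h T v₁' v z) :
    v₁ = v₁' :=
  step1 h T J hT hh hsep v v₁ v₁' (z.2, z.1) hz h1 h1' (Rl_symm _ _ _ _ _ hr)
    (Rl_symm _ _ _ _ _ hr')

theorem step3 (h : ℕ) (T : ℝ) (hT : 0 < T) (hh : 1 ≤ h) (v₀ v₁ v₂ v₃ : ℝ) (z₁ z₂ z₃ : ℕ × ℕ)
    (h1 : Rl h T v₀ v₁ z₁) (h2 : Rl h T v₁ v₂ z₂) (h3 : Rl h T v₂ v₃ z₃) :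
    |((z₁.1 : ℝ) * z₂.1 * z₃.1) * v₀ - ((z₁.2 : ℝ) * z₂.2 * z₃.2) * v₃| ≤ 24 * (h : ℝ) ^ 2 / T := by
  have hh0 : (0 : ℝ) < h := by exact_mod_cast hh
  have hhT : 0 < (h : ℝ) * T := mul_pos hh0 hT
  have key : ∀ (v v' : ℝ) (z : ℕ × ℕ), Rl h T v v' z →
      |(z.1 : ℝ) * v - (z.2 : ℝ) * v'| ≤ 2 / T := by
    intro v v' z hz
    have e1 : (z.2 : ℝ) ≤ 2 * h := by exact_mod_cast hz.2.1
    have e2 : min (z.1 : ℝ) (z.2 : ℝ) ≤ 2 * h := (min_le_right _ _).trans e1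
    calc |(z.1 : ℝ) * v - (z.2 : ℝ) * v'| ≤ min (z.1 : ℝ) (z.2 : ℝ) / (h * T) := hz.2.2.le
      _ ≤ 2 * h / (h * T) := div_le_div_of_nonneg_right e2 hhT.le
      _ = 2 / T := by field_simp
  have k1 := key _ _ _ h1
  have k2 := key _ _ _ h2
  have k3 := key _ _ _ h3
  have hT2 : 0 ≤ 2 / T := by positivity
  have p2 : (z₂.1 : ℝ) ≤ 2 * h := by exact_mod_cast h2.1
  have p3 : (z₃.1 : ℝ) ≤ 2 * h := by exact_mod_cast h3.1
  have q1 : (z₁.2 : ℝ) ≤ 2 * h := by exact_mod_cast h1.2.1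
  have q2 : (z₂.2 : ℝ) ≤ 2 * h := by exact_mod_cast h2.2.1
  have e0 : ((z₁.1 : ℝ) * z₂.1 * z₃.1) * v₀ - ((z₁.2 : ℝ) * z₂.2 * z₃.2) * v₃ =
      ((z₂.1 : ℝ) * z₃.1) * ((z₁.1 : ℝ) * v₀ - (z₁.2 : ℝ) * v₁) +
      ((z₁.2 : ℝ) * z₃.1) * ((z₂.1 : ℝ) * v₁ - (z₂.2 : ℝ) * v₂) +
      ((z₁.2 : ℝ) * z₂.2) * ((z₃.1 : ℝ) * v₂ - (z₃.2 : ℝ) * v₃) := by ring
  have bd : ∀ (a b : ℕ) (y : ℝ), (a : ℝ) ≤ 2 * h → (b : ℝ) ≤ 2 * h → |y| ≤ 2 / T →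
      |((a : ℝ) * b) * y| ≤ 8 * (h : ℝ) ^ 2 / T := by
    intro a b y ha hb hy
    have a0 : (0 : ℝ) ≤ a := Nat.cast_nonneg _
    have b0 : (0 : ℝ) ≤ b := Nat.cast_nonneg _
    rw [abs_mul, abs_of_nonneg (mul_nonneg a0 b0)]
    calc (a : ℝ) * b * |y| ≤ (2 * h) * (2 * h) * (2 / T) :=
          mul_le_mul (mul_le_mul ha hb b0 (by positivity)) hy (abs_nonneg _) (by positivity)
      _ = 8 * (h : ℝ) ^ 2 / T := by ring
  rw [e0]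
  have f1 := bd _ _ _ p2 p3 k1
  have f2 := bd _ _ _ q1 p3 k2
  have f3 := bd _ _ _ q1 q2 k3
  have t1 := abs_add_le (((z₂.1 : ℝ) * z₃.1) * ((z₁.1 : ℝ) * v₀ - (z₁.2 : ℝ) * v₁) +
      ((z₁.2 : ℝ) * z₃.1) * ((z₂.1 : ℝ) * v₁ - (z₂.2 : ℝ) * v₂))
      (((z₁.2 : ℝ) * z₂.2) * ((z₃.1 : ℝ) * v₂ - (z₃.2 : ℝ) * v₃))
  have t2 := abs_add_le (((z₂.1 : ℝ) * z₃.1) * ((z₁.1 : ℝ) * v₀ - (z₁.2 : ℝ) * v₁))
      (((z₁.2 : ℝ) * z₃.1) * ((z₂.1 : ℝ) * v₁ - (z₂.2 : ℝ) * v₂))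
  have e9 : 24 * (h : ℝ) ^ 2 / T = 8 * (h : ℝ) ^ 2 / T + 8 * (h : ℝ) ^ 2 / T +
      8 * (h : ℝ) ^ 2 / T := by ring
  rw [e9]
  linarith

theorem walks (en3 : S_EN3) (T lam : ℝ) (h : ℕ) (J : Finset ℝ) (hT : 0 < T) (hlam : 0 < lam)
    (hh : 1 ≤ h) (hv : ∀ v ∈ J, lam ≤ v)
    (hsep : ∀ v ∈ J, ∀ v' ∈ J, v ≠ v' → 2 / (h * T) ≤ |v - v'|) (hJ : 1 ≤ J.card) :
    ∑ v₀ ∈ J, ∑ v₁ ∈ J, ∑ v₂ ∈ J, ∑ v₃ ∈ J, kk J.card h T v₀ v₁ * kk J.card h T v₁ v₂ *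
      kk J.card h T v₂ v₃ ≤
      (J.card : ℝ) ^ 2 * ((48 * (h : ℝ) ^ 2 / (T * lam) + 1) * (1 + Real.log J.card) ^ 9) := by
  classical
  set n := J.card with hn
  set Bx := Finset.Icc 1 n ×ˢ Finset.Icc 1 n with hBx
  set w : ℕ × ℕ → ℝ := fun z => 1 / Real.sqrt ((z.1 : ℝ) * (z.2 : ℝ)) with hw
  have hk : ∀ v v', kk n h T v v' = ∑ z ∈ Bx, (if Rl h T v v' z then w z else 0) := by
    intro v v'
    unfold kk
    rw [Finset.sum_filter]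
  set Ω : Finset (((ℝ × ℝ) × (ℝ × ℝ)) × ((ℕ × ℕ) × (ℕ × ℕ) × (ℕ × ℕ))) :=
    ((J ×ˢ J) ×ˢ (J ×ˢ J)) ×ˢ (Bx ×ˢ Bx ×ˢ Bx) with hΩ
  set R : ((ℝ × ℝ) × (ℝ × ℝ)) × ((ℕ × ℕ) × (ℕ × ℕ) × (ℕ × ℕ)) → Prop := fun x =>
    Rl h T x.1.1.1 x.1.1.2 x.2.1 ∧ Rl h T x.1.1.2 x.1.2.1 x.2.2.1 ∧
      Rl h T x.1.2.1 x.1.2.2 x.2.2.2 with hR
  set W : ((ℝ × ℝ) × (ℝ × ℝ)) × ((ℕ × ℕ) × (ℕ × ℕ) × (ℕ × ℕ)) → ℝ := fun x =>
    w x.2.1 * w x.2.2.1 * w x.2.2.2 with hW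
  have e1 : ∑ v₀ ∈ J, ∑ v₁ ∈ J, ∑ v₂ ∈ J, ∑ v₃ ∈ J, kk n h T v₀ v₁ * kk n h T v₁ v₂ *
      kk n h T v₂ v₃ = ∑ x ∈ Ω.filter R, W x := by
    rw [Finset.sum_filter, hΩ]
    simp only [Finset.sum_product]
    refine Finset.sum_congr rfl fun v₀ _ => Finset.sum_congr rfl fun v₁ _ =>
      Finset.sum_congr rfl fun v₂ _ => Finset.sum_congr rfl fun v₃ _ => ?_
    rw [hk, hk, hk, Finset.sum_mul_sum, Finset.sum_mul]
    refine Finset.sum_congr rfl fun z₁ _ => ?_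
    rw [Finset.sum_mul]
    refine Finset.sum_congr rfl fun z₂ _ => ?_
    rw [Finset.mul_sum]
    refine Finset.sum_congr rfl fun z₃ _ => ?_
    simp only [hR, hW]
    by_cases c1 : Rl h T v₀ v₁ z₁ <;> by_cases c2 : Rl h T v₁ v₂ z₂ <;>
      by_cases c3 : Rl h T v₂ v₃ z₃ <;> simp only [c1, c2, c3, if_true, if_false, and_self,
        and_false, false_and, and_true, true_and, mul_zero, zero_mul]
  rw [e1]
  -- the map
  set Δ : ℝ := 24 * (h : ℝ) ^ 2 / (T * lam) with hΔ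
  have hΔ0 : 0 ≤ Δ := by positivity
  set φ : ((ℝ × ℝ) × (ℝ × ℝ)) × ((ℕ × ℕ) × (ℕ × ℕ) × (ℕ × ℕ)) →
      (ℝ × ℝ) × ((ℕ × ℕ × ℕ) × (ℕ × ℕ × ℕ)) := fun x =>
    ((x.1.1.1, x.1.2.2), ((x.2.1.1, x.2.2.1.1, x.2.2.2.1), (x.2.1.2, x.2.2.1.2, x.2.2.2.2)))
    with hφ
  set g : (ℝ × ℝ) × ((ℕ × ℕ × ℕ) × (ℕ × ℕ × ℕ)) → ℝ := fun y =>
    1 / Real.sqrt ((prd y.2.1 : ℝ) * (prd y.2.2 : ℝ)) with hg
  have hWg : ∀ x, W x = g (φ x) := by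
    intro x
    simp only [hW, hg, hφ, hw, prd]
    rw [one_div_mul_one_div, one_div_mul_one_div, ← Real.sqrt_mul (by positivity),
      ← Real.sqrt_mul (by positivity)]
    congr 2
    push_cast
    ring
  have hmem : ∀ x ∈ Ω.filter R, (x.1.1.1 ∈ J ∧ x.1.1.2 ∈ J ∧ x.1.2.1 ∈ J ∧ x.1.2.2 ∈ J) ∧
      (x.2.1 ∈ Bx ∧ x.2.2.1 ∈ Bx ∧ x.2.2.2 ∈ Bx) ∧ R x := by
    intro x hx
    rw [Finset.mem_filter, hΩ] at hx
    simp only [Finset.mem_product] at hx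
    obtain ⟨⟨⟨⟨h1, h2⟩, h3, h4⟩, h5, h6, h7⟩, h8⟩ := hx
    exact ⟨⟨h1, h2, h3, h4⟩, ⟨h5, h6, h7⟩, h8⟩
  have hBm : ∀ z ∈ Bx, (1 ≤ z.1 ∧ z.1 ≤ n) ∧ (1 ≤ z.2 ∧ z.2 ≤ n) := by
    intro z hz
    rw [hBx, Finset.mem_product, Finset.mem_Icc, Finset.mem_Icc] at hz
    exact hz
  have hinj : Set.InjOn φ (Ω.filter R : Finset _) := by
    intro x hx y hy hxy
    obtain ⟨⟨a1, a2, a3, a4⟩, ⟨a5, a6, a7⟩, a8, a9, a10⟩ := hmem x hx
    obtain ⟨⟨b1, b2, b3, b4⟩, ⟨b5, b6, b7⟩, b8, b9, b10⟩ := hmem y hy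
    obtain ⟨⟨⟨x0, x1⟩, x2, x3⟩, ⟨p1, q1⟩, ⟨p2, q2⟩, ⟨p3, q3⟩⟩ := x
    obtain ⟨⟨⟨y0, y1⟩, y2, y3⟩, ⟨p1', q1'⟩, ⟨p2', q2'⟩, ⟨p3', q3'⟩⟩ := y
    simp only [hφ, Prod.mk.injEq] at hxy
    obtain ⟨⟨c1, c2⟩, ⟨c3, c4, c5⟩, c6, c7, c8⟩ := hxy
    subst c1 c2 c3 c4 c5 c6 c7 c8
    have d1 : x1 = y1 := step1 h T J hT hh hsep x0 x1 y1 (p1, q1) (hBm _ a5).2.1 a2 b2 a8 b8
    have d2 : x2 = y2 := step2 h T J hT hh hsep x3 x2 y2 (p3, q3) (hBm _ a7).1.1 a3 b3 a10 b10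
    subst d1 d2
    rfl
  set cond : (ℝ × ℝ) × ((ℕ × ℕ × ℕ) × (ℕ × ℕ × ℕ)) → Prop := fun y =>
    |(prd y.2.1 : ℝ) * y.1.1 - (prd y.2.2 : ℝ) * y.1.2| ≤ Δ * min y.1.1 y.1.2 with hcond
  have hsub : (Ω.filter R).image φ ⊆ ((J ×ˢ J) ×ˢ (L7h52.LF.box n ×ˢ L7h52.LF.box n)).filter cond := by
    intro y hy
    obtain ⟨x, hx, rfl⟩ := Finset.mem_image.1 hy
    obtain ⟨⟨a1, a2, a3, a4⟩, ⟨a5, a6, a7⟩, a8, a9, a10⟩ := hmem x hx
    have f5 := hBm _ a5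
    have f6 := hBm _ a6
    have f7 := hBm _ a7
    rw [Finset.mem_filter]
    constructor
    · simp only [hφ, L7h52.LF.box, Finset.mem_product, Finset.mem_Icc]
      exact ⟨⟨a1, a4⟩, ⟨f5.1, f6.1, f7.1⟩, f5.2, f6.2, f7.2⟩
    · simp only [hcond, hφ, prd]
      push_cast
      refine (step3 h T hT hh _ _ _ _ _ _ _ a8 a9 a10).trans ?_
      have m1 : lam ≤ min x.1.1.1 x.1.2.2 := le_min (hv _ a1) (hv _ a4)
      calc 24 * (h : ℝ) ^ 2 / T = Δ * lam := by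
            rw [hΔ]
            field_simp
        _ ≤ Δ * min x.1.1.1 x.1.2.2 := mul_le_mul_of_nonneg_left m1 hΔ0
  have e2 : ∑ x ∈ Ω.filter R, W x = ∑ y ∈ (Ω.filter R).image φ, g y := by
    rw [Finset.sum_image hinj]
    exact Finset.sum_congr rfl fun x _ => hWg x
  rw [e2]
  have e3 : ∑ y ∈ (Ω.filter R).image φ, g y ≤
      ∑ y ∈ ((J ×ˢ J) ×ˢ (L7h52.LF.box n ×ˢ L7h52.LF.box n)).filter cond, g y :=
    Finset.sum_le_sum_of_subset_of_nonneg hsub fun y _ _ => by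
      simp only [hg]
      positivity
  refine e3.trans ?_
  have e4 : ∑ y ∈ ((J ×ˢ J) ×ˢ (L7h52.LF.box n ×ˢ L7h52.LF.box n)).filter cond, g y =
      ∑ u ∈ J ×ˢ J, ∑ z ∈ (L7h52.LF.box n ×ˢ L7h52.LF.box n).filter (fun z => cond (u, z)), g (u, z) := by
    rw [Finset.sum_filter, Finset.sum_product]
    refine Finset.sum_congr rfl fun u _ => ?_
    rw [Finset.sum_filter]
  rw [e4]
  have e5 : ∀ u ∈ J ×ˢ J, ∑ z ∈ (L7h52.LF.box n ×ˢ L7h52.LF.box n).filter (fun z => cond (u, z)), g (u, z) ≤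
      (2 * Δ + 1) * (1 + Real.log n) ^ 9 := by
    intro u hu
    rw [Finset.mem_product] at hu
    have := en3 n u.1 u.2 Δ hJ (lt_of_lt_of_le hlam (hv _ hu.1))
      (lt_of_lt_of_le hlam (hv _ hu.2)) hΔ0
    convert this
  refine (Finset.sum_le_sum e5).trans (le_of_eq ?_)
  rw [Finset.sum_const, Finset.card_product, nsmul_eq_mul]
  push_cast
  rw [hΔ]
  ring

theorem s_CO3 (en3 : S_EN3) (br : S_BR) : S_CO3 := by
  classical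
  intro T lam h J hT hlam hh h8 hv hsep
  rcases J.eq_empty_or_nonempty with h0 | hne
  · subst h0
    simp
  have hn : 1 ≤ J.card := Finset.card_pos.2 hne
  set n := J.card with hnn
  have hn0 : (0 : ℝ) < n := by exact_mod_cast hn
  have hn1 : (1 : ℝ) ≤ n := by exact_mod_cast hn
  have hh0 : (0 : ℝ) < h := by exact_mod_cast hh
  set S : ℝ := ∑ v ∈ J, ∑ v' ∈ J, kk n h T v v' with hS
  have hS0 : 0 ≤ S := Finset.sum_nonneg fun v _ => Finset.sum_nonneg fun v' _ => kk_nonneg _ _ _ _ _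
  -- the number of collisions
  set A := Finset.Ico h (2 * h) ×ˢ Finset.Ico h (2 * h) with hA
  have c1 : ((((J ×ˢ J) ×ˢ A).filter (fun q : (ℝ × ℝ) × (ℕ × ℕ) =>
      |(q.2.1 : ℝ) * q.1.1 - (q.2.2 : ℝ) * q.1.2| < 1 / T)).card : ℝ) ≤ 2 * h * (n + S) := by
    have d1 : ((((J ×ˢ J) ×ˢ A).filter (fun q : (ℝ × ℝ) × (ℕ × ℕ) =>
        |(q.2.1 : ℝ) * q.1.1 - (q.2.2 : ℝ) * q.1.2| < 1 / T)).card : ℝ) =
        ∑ v ∈ J, ∑ v' ∈ J, ((A.filter (fun y : ℕ × ℕ =>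
          |(y.1 : ℝ) * v - (y.2 : ℝ) * v'| < 1 / T)).card : ℝ) := by
      rw [Finset.card_filter, Finset.sum_product, Finset.sum_product]
      push_cast
      refine Finset.sum_congr rfl fun v _ => Finset.sum_congr rfl fun v' _ => ?_
      rw [Finset.card_filter]
      push_cast
      rfl
    rw [d1]
    have d2 : ∀ v ∈ J, ∀ v' ∈ J, ((A.filter (fun y : ℕ × ℕ =>
        |(y.1 : ℝ) * v - (y.2 : ℝ) * v'| < 1 / T)).card : ℝ) ≤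
        2 * h * (1 / n + kk n h T v v') := fun v hv0 v' _ =>
      cnt_le T lam h n v v' hn hT hlam hh h8 (hv v hv0)
    refine (Finset.sum_le_sum fun v hv0 => Finset.sum_le_sum fun v' hv' => d2 v hv0 v' hv').trans
      (le_of_eq ?_)
    simp only [← Finset.mul_sum, Finset.sum_add_distrib, Finset.sum_const, nsmul_eq_mul]
    rw [← hnn, ← hS]
    congr 2
    field_simp
  have c2 := br J (kk n h T) (fun v v' => kk_nonneg _ _ _ _ _) (fun v v' => kk_symm _ _ _ _ _)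
  have c3 := walks en3 T lam h J hT hlam hh hv hsep hn
  rw [← hnn] at c2 c3
  rw [← hS] at c2
  set L : ℝ := (1 + Real.log n) ^ 9 with hL
  have hL1 : 1 ≤ L := one_le_pow₀ (by linarith [Real.log_nonneg hn1])
  set D : ℝ := 48 * (h : ℝ) ^ 2 / (T * lam) + 1 with hD
  have hD1 : 1 ≤ D := by
    have : 0 ≤ 48 * (h : ℝ) ^ 2 / (T * lam) := by positivity
    rw [hD]
    linarith
  have hDL : 1 ≤ D * L := one_le_mul_of_one_le_of_one_le hD1 hL1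
  have c4 : S ^ 3 ≤ (n : ℝ) ^ 4 * (D * L) := by
    calc S ^ 3 ≤ (n : ℝ) ^ 2 * ((n : ℝ) ^ 2 * (D * L)) :=
          c2.trans (mul_le_mul_of_nonneg_left c3 (by positivity))
      _ = (n : ℝ) ^ 4 * (D * L) := by ring
  have c5 : (n : ℝ) ^ 3 ≤ (n : ℝ) ^ 4 * (D * L) := by
    calc (n : ℝ) ^ 3 = (n : ℝ) ^ 3 * 1 * 1 := by ring
      _ ≤ (n : ℝ) ^ 3 * n * (D * L) :=
          mul_le_mul (mul_le_mul_of_nonneg_left hn1 (by positivity)) hDL (by norm_num)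
            (by positivity)
      _ = (n : ℝ) ^ 4 * (D * L) := by ring
  have c6 : ((n : ℝ) + S) ^ 3 ≤ 4 * ((n : ℝ) ^ 3 + S ^ 3) := by
    have : 0 ≤ 3 * ((n : ℝ) + S) * ((n : ℝ) - S) ^ 2 := by positivity
    nlinarith
  calc _ ≤ (2 * (h : ℝ) * (n + S)) ^ 3 := pow_le_pow_left₀ (Nat.cast_nonneg _) c1 3
    _ = 8 * (h : ℝ) ^ 3 * ((n : ℝ) + S) ^ 3 := by ring
    _ ≤ 8 * (h : ℝ) ^ 3 * (4 * ((n : ℝ) ^ 3 + S ^ 3)) :=
        mul_le_mul_of_nonneg_left c6 (by positivity)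
    _ ≤ 8 * (h : ℝ) ^ 3 * (4 * ((n : ℝ) ^ 4 * (D * L) + (n : ℝ) ^ 4 * (D * L))) :=
        mul_le_mul_of_nonneg_left (by linarith) (by positivity)
    _ = 64 * (h : ℝ) ^ 3 * (n : ℝ) ^ 4 * D * L := by ring

end Pool.Agent.L7h37.LF
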