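import Pool.Agent.L7h52.LF.Stm

/-! Project LF of helper52 (hard anchor MP_0ec205_nt): the part `S_COL` (collisions of multiples). -/

set_option autoImplicit false

open Finset MeasureTheory

namespace Pool.Agent.L7h37.LF

/-- pairs with a small reduced fraction -/
theorem small_pairs (h τ : ℕ) (A : Finset (ℕ × ℕ))
    (hA : ∀ x ∈ A, 1 ≤ x.1 ∧ 1 ≤ x.2 ∧ x.1 < 2 * h ∧ x.2 < 2 * h ∧
      x.1 / Nat.gcd x.1 x.2 ≤ τ ∧ x.2 / Nat.gcd x.1 x.2 ≤ τ) :
    A.card ≤ 4 * h * τ := by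
  classical
  set U : Finset (ℕ × ℕ) := (Finset.Icc 1 τ).biUnion (fun q =>
    (Finset.Icc 1 (2 * h / q) ×ˢ Finset.Icc 1 q).image (fun y => (y.1 * y.2, y.1 * q))) with hU
  set V : Finset (ℕ × ℕ) := (Finset.Icc 1 τ).biUnion (fun q =>
    (Finset.Icc 1 (2 * h / q) ×ˢ Finset.Icc 1 q).image (fun y => (y.1 * q, y.1 * y.2))) with hV
  have cU : U.card ≤ 2 * h * τ := by
    calc U.card ≤ ∑ q ∈ Finset.Icc 1 τ, ((Finset.Icc 1 (2 * h / q) ×ˢ Finset.Icc 1 q).image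
          (fun y : ℕ × ℕ => (y.1 * y.2, y.1 * q))).card := Finset.card_biUnion_le
      _ ≤ ∑ q ∈ Finset.Icc 1 τ, 2 * h := by
          refine Finset.sum_le_sum fun q hq => ?_
          refine Finset.card_image_le.trans ?_
          rw [Finset.card_product, Nat.card_Icc, Nat.card_Icc]
          simpa using Nat.div_mul_le_self (2 * h) q
      _ = 2 * h * τ := by simp [mul_comm]
  have cV : V.card ≤ 2 * h * τ := by
    calc V.card ≤ ∑ q ∈ Finset.Icc 1 τ, ((Finset.Icc 1 (2 * h / q) ×ˢ Finset.Icc 1 q).image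
          (fun y : ℕ × ℕ => (y.1 * q, y.1 * y.2))).card := Finset.card_biUnion_le
      _ ≤ ∑ q ∈ Finset.Icc 1 τ, 2 * h := by
          refine Finset.sum_le_sum fun q hq => ?_
          refine Finset.card_image_le.trans ?_
          rw [Finset.card_product, Nat.card_Icc, Nat.card_Icc]
          simpa using Nat.div_mul_le_self (2 * h) q
      _ = 2 * h * τ := by simp [mul_comm]
  have hsub : A ⊆ U ∪ V := by
    intro x hx
    obtain ⟨a1, a2, a3, a4, a5, a6⟩ := hA x hx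
    obtain ⟨a, b⟩ := x
    simp only at a1 a2 a3 a4 a5 a6
    set g := Nat.gcd a b with hg
    have hg0 : 0 < g := Nat.gcd_pos_of_pos_left _ a1
    have ha : g * (a / g) = a := Nat.mul_div_cancel' (Nat.gcd_dvd_left a b)
    have hb : g * (b / g) = b := Nat.mul_div_cancel' (Nat.gcd_dvd_right a b)
    have hp : 1 ≤ a / g := by
      rcases Nat.eq_zero_or_pos (a / g) with h0 | h0
      · rw [h0] at ha; omega
      · exact h0
    have hq : 1 ≤ b / g := by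
      rcases Nat.eq_zero_or_pos (b / g) with h0 | h0
      · rw [h0] at hb; omega
      · exact h0
    rw [Finset.mem_union]
    rcases le_total (a / g) (b / g) with hpq | hpq
    · left
      rw [hU, Finset.mem_biUnion]
      refine ⟨b / g, Finset.mem_Icc.2 ⟨hq, a6⟩, ?_⟩
      rw [Finset.mem_image]
      refine ⟨(g, a / g), ?_, ?_⟩
      · rw [Finset.mem_product]
        refine ⟨Finset.mem_Icc.2 ⟨hg0, ?_⟩, Finset.mem_Icc.2 ⟨hp, hpq⟩⟩
        rw [Nat.le_div_iff_mul_le (by omega)]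
        show g * (b / g) ≤ 2 * h
        omega
      · show (g * (a / g), g * (b / g)) = (a, b)
        rw [ha, hb]
    · right
      rw [hV, Finset.mem_biUnion]
      refine ⟨a / g, Finset.mem_Icc.2 ⟨hp, a5⟩, ?_⟩
      rw [Finset.mem_image]
      refine ⟨(g, b / g), ?_, ?_⟩
      · rw [Finset.mem_product]
        refine ⟨Finset.mem_Icc.2 ⟨hg0, ?_⟩, Finset.mem_Icc.2 ⟨hq, hpq⟩⟩
        rw [Nat.le_div_iff_mul_le (by omega)]
        show g * (a / g) ≤ 2 * h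
        omega
      · show (g * (a / g), g * (b / g)) = (a, b)
        rw [ha, hb]
  calc A.card ≤ (U ∪ V).card := Finset.card_le_card hsub
    _ ≤ U.card + V.card := Finset.card_union_le _ _
    _ ≤ 2 * h * τ + 2 * h * τ := Nat.add_le_add cU cV
    _ = 4 * h * τ := by ring

theorem sqrt_num (k h a b : ℕ) (ha : a ≤ 4 * h * Nat.sqrt k)
    (hb : b ≤ k * (2 * h / (Nat.sqrt k + 1))) : ((a + b : ℕ) : ℝ) ≤ 6 * h * Real.sqrt k := by
  have hk : (0 : ℝ) ≤ (k : ℝ) := Nat.cast_nonneg _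
  have hh : (0 : ℝ) ≤ (h : ℝ) := Nat.cast_nonneg _
  have hs0 : 0 ≤ Real.sqrt k := Real.sqrt_nonneg _
  have hsq : Real.sqrt k * Real.sqrt k = k := Real.mul_self_sqrt hk
  have ht0 : (0 : ℝ) < (Nat.sqrt k : ℝ) + 1 := by positivity
  have hτ1 : (Nat.sqrt k : ℝ) ≤ Real.sqrt k := by
    refine Real.le_sqrt_of_sq_le ?_
    have h' : ((Nat.sqrt k * Nat.sqrt k : ℕ) : ℝ) ≤ (k : ℝ) := by exact_mod_cast Nat.sqrt_le k
    push_cast at h'
    rw [sq]
    exact h'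
  have hτ2 : Real.sqrt k ≤ (Nat.sqrt k : ℝ) + 1 := by
    refine Real.sqrt_le_iff.2 ⟨ht0.le, ?_⟩
    have h' : ((k : ℕ) : ℝ) ≤ (((Nat.sqrt k + 1) * (Nat.sqrt k + 1) : ℕ) : ℝ) := by
      exact_mod_cast (Nat.lt_succ_sqrt k).le
    push_cast at h'
    rw [sq]
    exact h'
  have e0 : (a : ℝ) ≤ 4 * h * Real.sqrt k := by
    have e1 : (a : ℝ) ≤ 4 * h * (Nat.sqrt k : ℝ) := by exact_mod_cast ha
    exact e1.trans (mul_le_mul_of_nonneg_left hτ1 (by positivity))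
  have e1 : (b : ℝ) ≤ (k : ℝ) * ((2 * h / (Nat.sqrt k + 1) : ℕ) : ℝ) := by exact_mod_cast hb
  have e2 : ((2 * h / (Nat.sqrt k + 1) : ℕ) : ℝ) ≤ 2 * h / ((Nat.sqrt k : ℝ) + 1) := by
    have := @Nat.cast_div_le ℝ _ _ _ (2 * h) (Nat.sqrt k + 1)
    push_cast at this
    exact this
  have e3 : (k : ℝ) / ((Nat.sqrt k : ℝ) + 1) ≤ Real.sqrt k := by
    rw [div_le_iff₀ ht0]
    calc (k : ℝ) = Real.sqrt k * Real.sqrt k := hsq.symm
      _ ≤ Real.sqrt k * ((Nat.sqrt k : ℝ) + 1) := mul_le_mul_of_nonneg_left hτ2 hs0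
  have e4 : (b : ℝ) ≤ 2 * h * Real.sqrt k := by
    calc (b : ℝ) ≤ (k : ℝ) * (2 * h / ((Nat.sqrt k : ℝ) + 1)) :=
          e1.trans (mul_le_mul_of_nonneg_left e2 hk)
      _ = 2 * h * ((k : ℝ) / ((Nat.sqrt k : ℝ) + 1)) := by ring
      _ ≤ 2 * h * Real.sqrt k := mul_le_mul_of_nonneg_left e3 (by positivity)
  push_cast
  linarith

theorem one_point (T ℓ : ℝ) (h : ℕ) (J : Finset ℝ) (hT : 0 < T) (hl : 0 < ℓ) (h1 : 1 ≤ h)
    (h4 : 4 * (h : ℝ) ^ 2 ≤ T * ℓ) (hJ : ∀ v ∈ J, ℓ / h ≤ v)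
    (hsep : ∀ v ∈ J, ∀ v' ∈ J, v ≠ v' → 2 / (h * T) ≤ |v - v'|) (v : ℝ) (hv : v ∈ J) :
    (((J ×ˢ (Finset.Ico h (2 * h) ×ˢ Finset.Ico h (2 * h))).filter
      (fun q : ℝ × (ℕ × ℕ) => |(q.2.1 : ℝ) * v - (q.2.2 : ℝ) * q.1| < 1 / T)).card : ℝ) ≤
      6 * h * Real.sqrt J.card := by
  classical
  have hh0 : (0 : ℝ) < h := by exact_mod_cast h1
  set S := (J ×ˢ (Finset.Ico h (2 * h) ×ˢ Finset.Ico h (2 * h))).filter
      (fun q : ℝ × (ℕ × ℕ) => |(q.2.1 : ℝ) * v - (q.2.2 : ℝ) * q.1| < 1 / T) with hS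
  have memS : ∀ q ∈ S, q.1 ∈ J ∧ (h ≤ q.2.1 ∧ q.2.1 < 2 * h) ∧ (h ≤ q.2.2 ∧ q.2.2 < 2 * h) ∧
      |(q.2.1 : ℝ) * v - (q.2.2 : ℝ) * q.1| < 1 / T := by
    intro q hq
    rw [hS, Finset.mem_filter, Finset.mem_product, Finset.mem_product, Finset.mem_Ico,
      Finset.mem_Ico] at hq
    exact ⟨hq.1.1, hq.1.2.1, hq.1.2.2, hq.2⟩
  set τ := Nat.sqrt J.card with hτ
  -- first injectivity
  have inj1 : ∀ q ∈ S, ∀ q' ∈ S, q.2 = q'.2 → q = q' := by
    intro q hq q' hq' e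
    obtain ⟨b1, b2, b3, b4⟩ := memS q hq
    obtain ⟨c1, c2, c3, c4⟩ := memS q' hq'
    by_contra hne
    have hne1 : q.1 ≠ q'.1 := fun h0 => hne (Prod.ext h0 e)
    have hs := hsep q.1 b1 q'.1 c1 hne1
    rw [← e] at c4
    have ha : (h : ℝ) ≤ (q.2.2 : ℝ) := by exact_mod_cast b3.1
    have ha0 : (0 : ℝ) < q.2.2 := lt_of_lt_of_le hh0 ha
    have : (q.2.2 : ℝ) * |q.1 - q'.1| < 2 / T := by
      calc (q.2.2 : ℝ) * |q.1 - q'.1| = |(q.2.2 : ℝ) * (q.1 - q'.1)| := by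
            rw [abs_mul, abs_of_pos ha0]
        _ = |((q.2.1 : ℝ) * v - (q.2.2 : ℝ) * q'.1) - ((q.2.1 : ℝ) * v - (q.2.2 : ℝ) * q.1)| := by
            congr 1; ring
        _ ≤ |(q.2.1 : ℝ) * v - (q.2.2 : ℝ) * q'.1| + |(q.2.1 : ℝ) * v - (q.2.2 : ℝ) * q.1| :=
            abs_sub _ _
        _ < 1 / T + 1 / T := add_lt_add c4 b4
        _ = 2 / T := by ring
    have h2 : (h : ℝ) * (2 / (h * T)) = 2 / T := by field_simp
    have h3 : (h : ℝ) * (2 / (h * T)) ≤ (q.2.2 : ℝ) * |q.1 - q'.1| :=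
      mul_le_mul ha hs (by positivity) ha0.le
    linarith
  -- second injectivity
  have inj2 : ∀ q ∈ S, ∀ q' ∈ S, q.1 = q'.1 → Nat.gcd q.2.1 q.2.2 = Nat.gcd q'.2.1 q'.2.2 →
      q = q' := by
    intro q hq q' hq' e eg
    obtain ⟨b1, b2, b3, b4⟩ := memS q hq
    obtain ⟨c1, c2, c3, c4⟩ := memS q' hq'
    have hvv := hJ v hv
    have hv0 : 0 < v := lt_of_lt_of_le (by positivity) hvv
    have a1 : (q.2.2 : ℝ) < 2 * h := by exact_mod_cast b3.2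
    have a2 : (q'.2.2 : ℝ) < 2 * h := by exact_mod_cast c3.2
    have n1 : (0 : ℝ) < (q.2.2 : ℝ) := lt_of_lt_of_le hh0 (by exact_mod_cast b3.1)
    have n2 : (0 : ℝ) < (q'.2.2 : ℝ) := lt_of_lt_of_le hh0 (by exact_mod_cast c3.1)
    rw [← e] at c4
    have key : v * |(q.2.1 : ℝ) * q'.2.2 - q'.2.1 * q.2.2| < 4 * h / T := by
      calc v * |(q.2.1 : ℝ) * q'.2.2 - q'.2.1 * q.2.2|
          = |v * ((q.2.1 : ℝ) * q'.2.2 - q'.2.1 * q.2.2)| := by rw [abs_mul, abs_of_pos hv0]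
        _ = |((q.2.1 : ℝ) * v - q.2.2 * q.1) * q'.2.2 - ((q'.2.1 : ℝ) * v - q'.2.2 * q.1) * q.2.2| := by
            congr 1; ring
        _ ≤ |((q.2.1 : ℝ) * v - q.2.2 * q.1) * q'.2.2| +
            |((q'.2.1 : ℝ) * v - q'.2.2 * q.1) * q.2.2| := abs_sub _ _
        _ = |(q.2.1 : ℝ) * v - q.2.2 * q.1| * q'.2.2 +
            |(q'.2.1 : ℝ) * v - q'.2.2 * q.1| * q.2.2 := by
            rw [abs_mul, abs_mul, abs_of_pos n1, abs_of_pos n2]
        _ < 1 / T * (2 * h) + 1 / T * (2 * h) := by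
            have hT' : 0 < 1 / T := by positivity
            refine add_lt_add ?_ ?_
            · exact mul_lt_mul'' b4 a2 (abs_nonneg _) n2.le
            · exact mul_lt_mul'' c4 a1 (abs_nonneg _) n1.le
        _ = 4 * h / T := by ring
    have hz : |(q.2.1 : ℝ) * q'.2.2 - q'.2.1 * q.2.2| < 1 := by
      by_contra hge
      push Not at hge
      have e1 : ℓ / h * 1 ≤ v * |(q.2.1 : ℝ) * q'.2.2 - q'.2.1 * q.2.2| :=
        mul_le_mul hvv hge zero_le_one hv0.le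
      have e2 : ℓ / h < 4 * h / T := by linarith
      rw [div_lt_div_iff₀ hh0 hT] at e2
      nlinarith
    have hz' : (q.2.1 : ℤ) * q'.2.2 - q'.2.1 * q.2.2 = 0 := by
      have : |(q.2.1 : ℤ) * q'.2.2 - q'.2.1 * q.2.2| < 1 := by exact_mod_cast hz
      exact Int.abs_lt_one_iff.1 this
    have hzn : q.2.1 * q'.2.2 = q'.2.1 * q.2.2 := by
      have : (q.2.1 : ℤ) * q'.2.2 = q'.2.1 * q.2.2 := by linarith
      exact_mod_cast this
    have hg : q.2.1 * Nat.gcd q'.2.1 q'.2.2 = q'.2.1 * Nat.gcd q.2.1 q.2.2 := by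
      rw [← Nat.gcd_mul_left, ← Nat.gcd_mul_left, hzn, mul_comm q.2.1 q'.2.1]
    have hg0 : 0 < Nat.gcd q'.2.1 q'.2.2 := Nat.gcd_pos_of_pos_left _ (by omega)
    rw [eg] at hg
    have ea : q.2.1 = q'.2.1 := Nat.eq_of_mul_eq_mul_right hg0 hg
    rw [ea] at hzn
    have eb : q'.2.2 = q.2.2 := Nat.eq_of_mul_eq_mul_left (by omega) hzn
    exact Prod.ext e (Prod.ext ea eb.symm)
  -- the two parts
  set A := S.filter (fun q => q.2.1 / Nat.gcd q.2.1 q.2.2 ≤ τ ∧ q.2.2 / Nat.gcd q.2.1 q.2.2 ≤ τ)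
    with hAd
  set B := S.filter (fun q => ¬ (q.2.1 / Nat.gcd q.2.1 q.2.2 ≤ τ ∧
    q.2.2 / Nat.gcd q.2.1 q.2.2 ≤ τ)) with hBd
  have hcard : S.card = A.card + B.card := by
    rw [hAd, hBd, Finset.card_filter_add_card_filter_not]
  have hAc : A.card ≤ 4 * h * τ := by
    have e : A.card = (A.image Prod.snd).card := by
      rw [Finset.card_image_of_injOn]
      intro q hq q' hq' e
      exact inj1 q (Finset.mem_filter.1 hq).1 q' (Finset.mem_filter.1 hq').1 e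
    rw [e]
    refine small_pairs h τ _ ?_
    intro x hx
    obtain ⟨q, hq, rfl⟩ := Finset.mem_image.1 hx
    obtain ⟨hq1, hq2⟩ := Finset.mem_filter.1 hq
    obtain ⟨b1, b2, b3, b4⟩ := memS q hq1
    exact ⟨by omega, by omega, b2.2, b3.2, hq2.1, hq2.2⟩
  have hBc : B.card ≤ J.card * (2 * h / (τ + 1)) := by
    have e : B.card = (B.image (fun q => (q.1, Nat.gcd q.2.1 q.2.2))).card := by
      rw [Finset.card_image_of_injOn]
      intro q hq q' hq' e0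
      have e : (q.1, Nat.gcd q.2.1 q.2.2) = (q'.1, Nat.gcd q'.2.1 q'.2.2) := e0
      have e1 : q.1 = q'.1 := (Prod.mk.inj e).1
      have e2 : Nat.gcd q.2.1 q.2.2 = Nat.gcd q'.2.1 q'.2.2 := (Prod.mk.inj e).2
      exact inj2 q (Finset.mem_filter.1 hq).1 q' (Finset.mem_filter.1 hq').1 e1 e2
    rw [e]
    have hsub : B.image (fun q => (q.1, Nat.gcd q.2.1 q.2.2)) ⊆
        J ×ˢ Finset.Icc 1 (2 * h / (τ + 1)) := by
      intro x hx
      obtain ⟨q, hq, rfl⟩ := Finset.mem_image.1 hx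
      obtain ⟨hq1, hq2⟩ := Finset.mem_filter.1 hq
      obtain ⟨b1, b2, b3, b4⟩ := memS q hq1
      rw [Finset.mem_product, Finset.mem_Icc]
      have hg0 : 0 < Nat.gcd q.2.1 q.2.2 := Nat.gcd_pos_of_pos_left _ (by omega)
      refine ⟨b1, hg0, ?_⟩
      rw [Nat.le_div_iff_mul_le (by omega)]
      show Nat.gcd q.2.1 q.2.2 * (τ + 1) ≤ 2 * h
      have ha := Nat.mul_div_cancel' (Nat.gcd_dvd_left q.2.1 q.2.2)
      have hb := Nat.mul_div_cancel' (Nat.gcd_dvd_right q.2.1 q.2.2)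
      rw [not_and_or, not_le, not_le] at hq2
      rcases hq2 with h0 | h0
      · calc Nat.gcd q.2.1 q.2.2 * (τ + 1) ≤
            Nat.gcd q.2.1 q.2.2 * (q.2.1 / Nat.gcd q.2.1 q.2.2) := Nat.mul_le_mul_left _ h0
          _ = q.2.1 := ha
          _ ≤ 2 * h := b2.2.le
      · calc Nat.gcd q.2.1 q.2.2 * (τ + 1) ≤
            Nat.gcd q.2.1 q.2.2 * (q.2.2 / Nat.gcd q.2.1 q.2.2) := Nat.mul_le_mul_left _ h0
          _ = q.2.2 := hb
          _ ≤ 2 * h := b3.2.le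
    refine (Finset.card_le_card hsub).trans ?_
    rw [Finset.card_product, Nat.card_Icc]
    simp
  -- conclusion
  rw [hcard]
  exact sqrt_num J.card h A.card B.card hAc hBc

theorem s_COL : Pool.Agent.L7h52.LF.S_COL := by
  classical
  intro T ℓ h J hT hl h1 h4 hJ hsep
  set X := ((J ×ˢ J) ×ˢ (Finset.Ico h (2 * h) ×ˢ Finset.Ico h (2 * h))).filter
    (fun q : (ℝ × ℝ) × (ℕ × ℕ) => |(q.2.1 : ℝ) * q.1.1 - (q.2.2 : ℝ) * q.1.2| < 1 / T) with hX
  have hsub : X ⊆ J.biUnion (fun v => ((J ×ˢ (Finset.Ico h (2 * h) ×ˢ Finset.Ico h (2 * h))).filter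
      (fun q : ℝ × (ℕ × ℕ) => |(q.2.1 : ℝ) * v - (q.2.2 : ℝ) * q.1| < 1 / T)).image
        (fun q => ((v, q.1), q.2))) := by
    intro q hq
    rw [hX, Finset.mem_filter, Finset.mem_product, Finset.mem_product] at hq
    obtain ⟨⟨⟨q1, q2⟩, q3⟩, q4⟩ := hq
    rw [Finset.mem_biUnion]
    refine ⟨q.1.1, q1, Finset.mem_image.2 ⟨(q.1.2, q.2), ?_, rfl⟩⟩
    rw [Finset.mem_filter, Finset.mem_product]
    exact ⟨⟨q2, q3⟩, q4⟩
  have hc : (X.card : ℝ) ≤ ∑ v ∈ J, 6 * h * Real.sqrt J.card := by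
    calc (X.card : ℝ) ≤ ((J.biUnion (fun v => ((J ×ˢ (Finset.Ico h (2 * h) ×ˢ
            Finset.Ico h (2 * h))).filter (fun q : ℝ × (ℕ × ℕ) =>
              |(q.2.1 : ℝ) * v - (q.2.2 : ℝ) * q.1| < 1 / T)).image
            (fun q => ((v, q.1), q.2)))).card : ℝ) := by exact_mod_cast Finset.card_le_card hsub
      _ ≤ ((∑ v ∈ J, (((J ×ˢ (Finset.Ico h (2 * h) ×ˢ
            Finset.Ico h (2 * h))).filter (fun q : ℝ × (ℕ × ℕ) =>
              |(q.2.1 : ℝ) * v - (q.2.2 : ℝ) * q.1| < 1 / T)).image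
            (fun q => ((v, q.1), q.2))).card : ℕ) : ℝ) := by
          exact_mod_cast Finset.card_biUnion_le
      _ = ∑ v ∈ J, ((((J ×ˢ (Finset.Ico h (2 * h) ×ˢ
            Finset.Ico h (2 * h))).filter (fun q : ℝ × (ℕ × ℕ) =>
              |(q.2.1 : ℝ) * v - (q.2.2 : ℝ) * q.1| < 1 / T)).image
            (fun q => ((v, q.1), q.2))).card : ℝ) := by push_cast; rfl
      _ ≤ ∑ v ∈ J, 6 * h * Real.sqrt J.card := by
          refine Finset.sum_le_sum fun v hv => ?_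
          refine le_trans ?_ (one_point T ℓ h J hT hl h1 h4 hJ hsep v hv)
          exact_mod_cast Finset.card_image_le
  refine hc.trans (le_of_eq ?_)
  rw [Finset.sum_const, nsmul_eq_mul]
  ring

end Pool.Agent.L7h37.LF
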