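import Pool.Agent.L7h52.LF.Stm

/-! Project LF of helper52 (hard anchor MP_0ec205_nt): the part `S_LAY` (layer cake sums). -/

set_option autoImplicit false

open Finset MeasureTheory

namespace Pool.Agent.L7h37.LF

/-- the counting function of the large values -/
noncomputable def cn {ι : Type} (s : Finset ι) (b : ι → ℝ) (t : ℝ) : ℝ :=
  ((s.filter (fun i => t ≤ b i)).card : ℝ)

theorem cn_eq {ι : Type} (s : Finset ι) (b : ι → ℝ) (t : ℝ) :
    cn s b t = ∑ i ∈ s, (if t ≤ b i then (1 : ℝ) else 0) := by
  unfold cn
  rw [Finset.card_filter]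
  push_cast
  rfl

theorem cn_anti {ι : Type} (s : Finset ι) (b : ι → ℝ) : Antitone (cn s b) := by
  intro x y hxy
  rw [cn_eq, cn_eq]
  refine Finset.sum_le_sum fun i _ => ?_
  split_ifs with h1 h2
  · exact le_rfl
  · exact absurd (hxy.trans h1) h2
  · exact zero_le_one
  · exact le_rfl

theorem cn_nonneg {ι : Type} (s : Finset ι) (b : ι → ℝ) (t : ℝ) : 0 ≤ cn s b t := by
  unfold cn
  exact Nat.cast_nonneg _

theorem cn_int {ι : Type} (s : Finset ι) (b : ι → ℝ) (p : ℕ) (x y : ℝ) :
    IntervalIntegrable (fun t => ((p : ℝ) + 1) * t ^ p * cn s b t) volume x y := by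
  refine IntervalIntegrable.continuousOn_mul (cn_anti s b).intervalIntegrable ?_
  fun_prop

theorem one_int (p : ℕ) (b x y : ℝ) :
    IntervalIntegrable (fun t => ((p : ℝ) + 1) * t ^ p * (if t ≤ b then (1 : ℝ) else 0)) volume x y := by
  refine IntervalIntegrable.continuousOn_mul ?_ ?_
  · refine Antitone.intervalIntegrable ?_
    intro u v huv
    show (if v ≤ b then (1 : ℝ) else 0) ≤ (if u ≤ b then (1 : ℝ) else 0)
    split_ifs with h1 h2
    · exact le_rfl
    · exact absurd (huv.trans h1) h2
    · exact zero_le_one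
    · exact le_rfl
  · fun_prop

theorem pow_int (p : ℕ) (x y : ℝ) :
    ∫ t in x..y, ((p : ℝ) + 1) * t ^ p = y ^ (p + 1) - x ^ (p + 1) := by
  rw [intervalIntegral.integral_const_mul, integral_pow]
  have : ((p : ℝ) + 1) ≠ 0 := by positivity
  field_simp

theorem int_one (p : ℕ) (b B : ℝ) (h0 : 0 ≤ b) (h1 : b ≤ B) :
    ∫ t in (0 : ℝ)..B, ((p : ℝ) + 1) * t ^ p * (if t ≤ b then (1 : ℝ) else 0) = b ^ (p + 1) := by
  rw [← intervalIntegral.integral_add_adjacent_intervals (one_int p b 0 b) (one_int p b b B)]
  have e1 : ∫ t in (0 : ℝ)..b, ((p : ℝ) + 1) * t ^ p * (if t ≤ b then (1 : ℝ) else 0) =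
      ∫ t in (0 : ℝ)..b, ((p : ℝ) + 1) * t ^ p := by
    refine intervalIntegral.integral_congr fun t ht => ?_
    rw [Set.uIcc_of_le h0] at ht
    simp [ht.2]
  have e2 : ∫ t in b..B, ((p : ℝ) + 1) * t ^ p * (if t ≤ b then (1 : ℝ) else 0) = 0 := by
    have : ∫ t in b..B, ((p : ℝ) + 1) * t ^ p * (if t ≤ b then (1 : ℝ) else 0) =
        ∫ t in b..B, (0 : ℝ) := by
      refine intervalIntegral.integral_congr_ae (Filter.Eventually.of_forall fun t ht => ?_)
      rw [Set.uIoc_of_le h1] at ht
      simp [not_le.2 ht.1]
    rw [this]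
    simp
  rw [e1, e2, pow_int]
  simp

theorem layer {ι : Type} (s : Finset ι) (b : ι → ℝ) (B : ℝ) (p : ℕ)
    (hb : ∀ i ∈ s, 0 ≤ b i ∧ b i ≤ B) :
    ∑ i ∈ s, b i ^ (p + 1) = ∫ t in (0 : ℝ)..B, ((p : ℝ) + 1) * t ^ p * cn s b t := by
  have : (fun t : ℝ => ((p : ℝ) + 1) * t ^ p * cn s b t) =
      fun t : ℝ => ∑ i ∈ s, ((p : ℝ) + 1) * t ^ p * (if t ≤ b i then (1 : ℝ) else 0) := by
    funext t
    rw [cn_eq, Finset.mul_sum]
  rw [this, intervalIntegral.integral_finsetSum fun i _ => one_int p (b i) 0 B]
  exact Finset.sum_congr rfl fun i hi => (int_one p (b i) B (hb i hi).1 (hb i hi).2).symm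

theorem s_LAY : Pool.Agent.L7h52.LF.S_LAY := by
  intro ι s b B D hB hD hb hN
  have hN' : ∀ t : ℝ, 0 < t → cn s b t ≤ D / t ^ 4 := hN
  have h5 : ∑ i ∈ s, b i ^ 5 ≤ 5 * D * B := by
    rw [layer s b B 4 hb]
    calc ∫ t in (0 : ℝ)..B, (((4 : ℕ) : ℝ) + 1) * t ^ 4 * cn s b t
        ≤ ∫ t in (0 : ℝ)..B, 5 * D := by
          refine intervalIntegral.integral_mono_on hB (cn_int s b 4 0 B) (by simp) ?_
          intro t ht
          rcases eq_or_lt_of_le ht.1 with h | h
          · rw [← h]
            simp
            exact hD.le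
          · have h4 : 0 < t ^ 4 := by positivity
            have := hN' t h
            have h' : t ^ 4 * cn s b t ≤ D := by
              calc t ^ 4 * cn s b t ≤ t ^ 4 * (D / t ^ 4) := by gcongr
                _ = D := by field_simp
            push_cast
            nlinarith
      _ = 5 * D * B := by simp; ring
  refine ⟨?_, ?_, ?_⟩
  · intro m hm
    obtain ⟨k, rfl⟩ := Nat.exists_eq_add_of_le hm
    have e : 5 + k - 4 = k + 1 := by omega
    rw [e]
    calc ∑ i ∈ s, b i ^ (5 + k) ≤ ∑ i ∈ s, B ^ k * b i ^ 5 := by
          refine Finset.sum_le_sum fun i hi => ?_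
          have h := hb i hi
          rw [pow_add, mul_comm]
          have := pow_le_pow_left₀ h.1 h.2 k
          have h5' : 0 ≤ b i ^ 5 := pow_nonneg h.1 5
          exact mul_le_mul_of_nonneg_right this h5'
      _ = B ^ k * ∑ i ∈ s, b i ^ 5 := by rw [Finset.mul_sum]
      _ ≤ B ^ k * (5 * D * B) := by
          have : 0 ≤ B ^ k := pow_nonneg hB k
          gcongr
      _ = 5 * D * B ^ (k + 1) := by ring
  · intro M hM hc
    rcases eq_or_lt_of_le hB with h | hB'
    · have : ∀ i ∈ s, b i ^ 4 = 0 := by
        intro i hi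
        have := hb i hi
        have h0 : b i = 0 := le_antisymm (by rw [h]; exact this.2) this.1
        rw [h0]; norm_num
      rw [Finset.sum_eq_zero this]
      have := Real.log_nonneg hM
      positivity
    · rw [layer s b B 3 hb]
      set r : ℝ := M ^ (1 / 4 : ℝ) with hr
      have hM0 : 0 < M := by linarith
      have hr0 : 0 < r := Real.rpow_pos_of_pos hM0 _
      have hr1 : 1 ≤ r := Real.one_le_rpow hM (by norm_num)
      have hr4 : r ^ 4 = M := by
        rw [hr, ← Real.rpow_natCast, ← Real.rpow_mul hM0.le]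
        norm_num
      have hs0 : 0 < B / r := by positivity
      have hs1 : B / r ≤ B := div_le_self hB hr1
      rw [← intervalIntegral.integral_add_adjacent_intervals (cn_int s b 3 0 (B / r))
        (cn_int s b 3 (B / r) B)]
      have i1 : ∫ t in (0 : ℝ)..(B / r), (((3 : ℕ) : ℝ) + 1) * t ^ 3 * cn s b t ≤ B ^ 4 := by
        calc ∫ t in (0 : ℝ)..(B / r), (((3 : ℕ) : ℝ) + 1) * t ^ 3 * cn s b t
            ≤ ∫ t in (0 : ℝ)..(B / r), ((((3 : ℕ) : ℝ) + 1) * t ^ 3) * M := by
              refine intervalIntegral.integral_mono_on hs0.le (cn_int s b 3 0 _)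
                (Continuous.intervalIntegrable (by fun_prop) _ _) ?_
              intro t ht
              have : cn s b t ≤ M := by
                refine le_trans ?_ hc
                unfold cn
                exact_mod_cast Finset.card_filter_le _ _
              have h3 : 0 ≤ t ^ 3 := pow_nonneg ht.1 3
              gcongr
          _ = B ^ 4 := by
              rw [intervalIntegral.integral_mul_const, pow_int]
              rw [div_pow, hr4]
              field_simp
              simp
      have i2 : ∫ t in (B / r)..B, (((3 : ℕ) : ℝ) + 1) * t ^ 3 * cn s b t ≤ D * Real.log M := by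
        calc ∫ t in (B / r)..B, (((3 : ℕ) : ℝ) + 1) * t ^ 3 * cn s b t
            ≤ ∫ t in (B / r)..B, (4 * D) * t⁻¹ := by
              refine intervalIntegral.integral_mono_on hs1 (cn_int s b 3 _ _) ?_ ?_
              · refine ContinuousOn.intervalIntegrable ?_
                rw [Set.uIcc_of_le hs1]
                refine ContinuousOn.mul continuousOn_const (ContinuousOn.inv₀ continuousOn_id ?_)
                intro t ht
                exact (lt_of_lt_of_le hs0 ht.1).ne'
              · intro t ht
                have ht0 : 0 < t := lt_of_lt_of_le hs0 ht.1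
                have h3 : 0 < t ^ 3 := by positivity
                calc (((3 : ℕ) : ℝ) + 1) * t ^ 3 * cn s b t
                    ≤ (((3 : ℕ) : ℝ) + 1) * t ^ 3 * (D / t ^ 4) := by
                      have := hN' t ht0
                      gcongr
                  _ = (4 * D) * t⁻¹ := by
                      push_cast
                      field_simp
                      ring
          _ = D * Real.log M := by
              rw [intervalIntegral.integral_const_mul, integral_inv_of_pos hs0 hB']
              have : B / (B / r) = r := by field_simp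
              rw [this, hr, Real.log_rpow hM0]
              ring
      linarith
  · intro Q hQ hs
    set z : ℝ := Real.sqrt (D / Q) with hz
    have hz0 : 0 < z := Real.sqrt_pos.2 (by positivity)
    have hzQ : z * Q = Real.sqrt (D * Q) := by
      have : D * Q = (D / Q) * Q ^ 2 := by field_simp
      rw [this, Real.sqrt_mul (by positivity), Real.sqrt_sq hQ.le]
    have hDz : D / z = Real.sqrt (D * Q) := by
      rw [← hzQ, div_eq_iff hz0.ne']
      have h2 : z * z = D / Q := Real.mul_self_sqrt (by positivity)
      calc D = (D / Q) * Q := by field_simp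
        _ = z * Q * z := by rw [← h2]; ring
    have hS0 : 0 ≤ Real.sqrt (D * Q) := Real.sqrt_nonneg _
    rcases le_total B z with hBz | hBz
    · calc ∑ i ∈ s, b i ^ 3 ≤ ∑ i ∈ s, z * b i ^ 2 := by
            refine Finset.sum_le_sum fun i hi => ?_
            have h := hb i hi
            have h2 : 0 ≤ b i ^ 2 := by positivity
            have : b i ≤ z := h.2.trans hBz
            nlinarith
        _ = z * ∑ i ∈ s, b i ^ 2 := by rw [Finset.mul_sum]
        _ ≤ z * Q := by gcongr
        _ = Real.sqrt (D * Q) := hzQ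
        _ ≤ 6 * Real.sqrt (D * Q) := by linarith
    · rw [layer s b B 2 hb, ← intervalIntegral.integral_add_adjacent_intervals (cn_int s b 2 0 z)
        (cn_int s b 2 z B)]
      have i1 : ∫ t in (0 : ℝ)..z, (((2 : ℕ) : ℝ) + 1) * t ^ 2 * cn s b t ≤
          3 / 2 * Real.sqrt (D * Q) := by
        calc ∫ t in (0 : ℝ)..z, (((2 : ℕ) : ℝ) + 1) * t ^ 2 * cn s b t
            ≤ ∫ t in (0 : ℝ)..z, (3 / 2 * z) * ((((1 : ℕ) : ℝ) + 1) * t ^ 1 * cn s b t) := by
              refine intervalIntegral.integral_mono_on hz0.le (cn_int s b 2 0 _)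
                ((cn_int s b 1 0 z).const_mul _) ?_
              intro t ht
              have h0 := cn_nonneg s b t
              have h1 : 0 ≤ t * cn s b t := mul_nonneg ht.1 h0
              push_cast
              have : t * (t * cn s b t) ≤ z * (t * cn s b t) :=
                mul_le_mul_of_nonneg_right ht.2 h1
              nlinarith
          _ = (3 / 2 * z) * ∫ t in (0 : ℝ)..z, (((1 : ℕ) : ℝ) + 1) * t ^ 1 * cn s b t := by
              rw [intervalIntegral.integral_const_mul]
          _ ≤ (3 / 2 * z) * ∫ t in (0 : ℝ)..B, (((1 : ℕ) : ℝ) + 1) * t ^ 1 * cn s b t := by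
              refine mul_le_mul_of_nonneg_left ?_ (by positivity)
              refine intervalIntegral.integral_mono_interval le_rfl hz0.le hBz ?_
                (cn_int s b 1 0 B)
              refine (ae_restrict_iff' measurableSet_Ioc).2 (Filter.Eventually.of_forall ?_)
              intro t ht
              have h0 := cn_nonneg s b t
              have h1 : 0 ≤ t := ht.1.le
              show 0 ≤ (((1 : ℕ) : ℝ) + 1) * t ^ 1 * cn s b t
              positivity
          _ = (3 / 2 * z) * ∑ i ∈ s, b i ^ 2 := by rw [← layer s b B 1 hb]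
          _ ≤ (3 / 2 * z) * Q := by gcongr
          _ = 3 / 2 * Real.sqrt (D * Q) := by rw [← hzQ]; ring
      have i2 : ∫ t in z..B, (((2 : ℕ) : ℝ) + 1) * t ^ 2 * cn s b t ≤ 3 * Real.sqrt (D * Q) := by
        have hder : ∀ t ∈ Set.uIcc z B, HasDerivAt (fun t : ℝ => -(3 * D) * t⁻¹)
            (3 * D * (t ^ 2)⁻¹) t := by
          intro t ht
          rw [Set.uIcc_of_le hBz] at ht
          have ht0 : t ≠ 0 := (lt_of_lt_of_le hz0 ht.1).ne'
          have := (hasDerivAt_inv ht0).const_mul (-(3 * D))
          have e : 3 * D * (t ^ 2)⁻¹ = -(3 * D) * (-(t ^ 2)⁻¹) := by ring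
          rw [e]
          exact this
        have hci : IntervalIntegrable (fun t : ℝ => 3 * D * (t ^ 2)⁻¹) volume z B := by
          refine ContinuousOn.intervalIntegrable ?_
          rw [Set.uIcc_of_le hBz]
          refine ContinuousOn.mul continuousOn_const
            (ContinuousOn.inv₀ (by fun_prop) ?_)
          intro t ht
          have : 0 < t := lt_of_lt_of_le hz0 ht.1
          positivity
        calc ∫ t in z..B, (((2 : ℕ) : ℝ) + 1) * t ^ 2 * cn s b t
            ≤ ∫ t in z..B, 3 * D * (t ^ 2)⁻¹ := by
              refine intervalIntegral.integral_mono_on hBz (cn_int s b 2 _ _) hci ?_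
              intro t ht
              have ht0 : 0 < t := lt_of_lt_of_le hz0 ht.1
              calc (((2 : ℕ) : ℝ) + 1) * t ^ 2 * cn s b t
                  ≤ (((2 : ℕ) : ℝ) + 1) * t ^ 2 * (D / t ^ 4) := by
                    have := hN' t ht0
                    gcongr
                _ = 3 * D * (t ^ 2)⁻¹ := by
                    push_cast
                    field_simp
                    ring
          _ = -(3 * D) * B⁻¹ - -(3 * D) * z⁻¹ :=
              intervalIntegral.integral_eq_sub_of_hasDerivAt hder hci
          _ ≤ 3 * (D / z) := by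
              have hB0 : 0 < B := lt_of_lt_of_le hz0 hBz
              have : 0 ≤ 3 * D * B⁻¹ := by positivity
              rw [div_eq_mul_inv]
              nlinarith
          _ = 3 * Real.sqrt (D * Q) := by rw [hDz]
      refine (add_le_add i1 i2).trans ?_
      linarith

end Pool.Agent.L7h37.LF
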